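import Mathlib

/-!
# Core of the suffix bound for LZ77

Parsings of a window `[a, b)` of a sequence `s` into pieces, each of which is a single letter or has
an earlier occurrence starting at a position `≥ i`.
-/

namespace Pool.Agent.V11238.LZ

variable {β : Type*}

/-- The factors of length `ℓ` at `j` and `u` agree. -/
def Occ (s : ℕ → β) (j u ℓ : ℕ) : Prop := ∀ t < ℓ, s (j + t) = s (u + t)

/-- `[a, c)` is parsed into `m` pieces with sources at positions `≥ i`. -/
inductive Parse (s : ℕ → β) (i : ℕ) : ℕ → ℕ → ℕ → Prop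
  | nil (a : ℕ) : Parse s i a a 0
  | cons {a b c m : ℕ} (hab : a < b) (h : b = a + 1 ∨ ∃ j, i ≤ j ∧ j < a ∧ Occ s j a (b - a))
      (hp : Parse s i b c m) : Parse s i a c (m + 1)

lemma Parse.le {s : ℕ → β} {i a b m : ℕ} (h : Parse s i a b m) : a ≤ b := by
  induction h with
  | nil a => exact le_rfl
  | cons hab _ _ ih => omega

lemma Parse.append {s : ℕ → β} {i a b c m m' : ℕ} (h : Parse s i a b m) (h' : Parse s i b c m') :
    Parse s i a c (m + m') := by
  induction h with
  | nil a => simpa using h'
  | cons hab hh _ ih =>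
    have := Parse.cons hab hh (ih h')
    rw [Nat.add_right_comm] at this
    exact this

lemma Parse.one {s : ℕ → β} {i a b : ℕ} (hab : a < b)
    (h : b = a + 1 ∨ ∃ j, i ≤ j ∧ j < a ∧ Occ s j a (b - a)) : Parse s i a b 1 :=
  Parse.cons hab h (Parse.nil b)

/-- Structured form of a parse. -/
structure Cuts (s : ℕ → β) (a n m : ℕ) where
  c : ℕ → ℕ
  d : ℕ → ℕ
  c0 : c 0 = a
  cm : c m = n
  mono : ∀ k < m, c k < c (k + 1)
  dle : ∀ k < m, d k ≤ c k
  zero : ∀ k < m, d k = 0 → c (k + 1) = c k + 1
  per : ∀ k < m, 0 < d k → ∀ p, c k ≤ p → p < c (k + 1) → s p = s (p - d k)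

lemma Parse.cuts {s : ℕ → β} {a n m : ℕ} (h : Parse s 0 a n m) : Nonempty (Cuts s a n m) := by
  induction h with
  | nil a => exact ⟨⟨fun _ => a, fun _ => 0, rfl, rfl, by omega, by omega, by omega, by omega⟩⟩
  | @cons a b c m hab hh hp ih =>
    obtain ⟨C⟩ := ih
    obtain ⟨d0, hd0, hd0', hd0''⟩ : ∃ d0, d0 ≤ a ∧ (d0 = 0 → b = a + 1) ∧
        (0 < d0 → ∀ p, a ≤ p → p < b → s p = s (p - d0)) := by
      rcases hh with h | ⟨j, -, hj, hocc⟩
      · exact ⟨0, by omega, fun _ => h, by omega⟩
      · refine ⟨a - j, by omega, by omega, fun _ p hp1 hp2 => ?_⟩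
        have := hocc (p - a) (by omega)
        rw [show a + (p - a) = p by omega] at this
        rw [← this]
        congr 1
        omega
    refine ⟨⟨fun k => if k = 0 then a else C.c (k - 1), fun k => if k = 0 then d0 else C.d (k - 1),
      by simp, by simp [C.cm], ?_, ?_, ?_, ?_⟩⟩
    · intro k hk
      rcases Nat.eq_zero_or_pos k with rfl | hk0
      · simp [C.c0, hab]
      · simp only [show k ≠ 0 by omega, if_false, show k + 1 ≠ 0 by omega, Nat.add_sub_cancel]
        have := C.mono (k - 1) (by omega)
        rwa [show k - 1 + 1 = k by omega] at this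
    · intro k hk
      rcases Nat.eq_zero_or_pos k with rfl | hk0
      · simpa using hd0
      · simp only [show k ≠ 0 by omega, if_false]
        exact C.dle (k - 1) (by omega)
    · intro k hk
      rcases Nat.eq_zero_or_pos k with rfl | hk0
      · simpa [C.c0] using hd0'
      · simp only [show k ≠ 0 by omega, if_false, show k + 1 ≠ 0 by omega, Nat.add_sub_cancel]
        have := C.zero (k - 1) (by omega)
        rwa [show k - 1 + 1 = k by omega] at this
    · intro k hk
      rcases Nat.eq_zero_or_pos k with rfl | hk0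
      · simpa [C.c0] using hd0''
      · simp only [show k ≠ 0 by omega, if_false, show k + 1 ≠ 0 by omega, Nat.add_sub_cancel]
        have := C.per (k - 1) (by omega)
        rwa [show k - 1 + 1 = k by omega] at this

namespace Cuts

variable {s : ℕ → β} {n m : ℕ} (C : Cuts s 0 n m)

lemma c_mono {k l : ℕ} (h : k ≤ l) (hl : l ≤ m) : C.c k ≤ C.c l := by
  induction l with
  | zero => simp [Nat.le_zero.1 h]
  | succ l ih =>
    rcases Nat.eq_or_lt_of_le h with rfl | h'
    · exact le_rfl
    · exact (ih (by omega) (by omega)).trans (C.mono l (by omega)).le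

/-- The index of the piece containing `p`. -/
def idx (p : ℕ) : ℕ := Nat.findGreatest (fun k => C.c k ≤ p) m

lemma idx_le (p : ℕ) : C.idx p ≤ m := Nat.findGreatest_le m

lemma idx_spec (p : ℕ) : C.c (C.idx p) ≤ p :=
  Nat.findGreatest_spec (P := fun k => C.c k ≤ p) (Nat.zero_le m) (by rw [C.c0]; exact Nat.zero_le _)

lemma idx_lt {p : ℕ} (hp : p < n) : C.idx p < m := by
  rcases Nat.lt_or_eq_of_le (C.idx_le p) with h | h
  · exact h
  · have := C.idx_spec p
    rw [h, C.cm] at this
    omega

lemma lt_idx {p : ℕ} (hp : p < n) : p < C.c (C.idx p + 1) := by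
  by_contra hcon
  push Not at hcon
  have h1 := C.idx_lt hp
  have := Nat.le_findGreatest (P := fun k => C.c k ≤ p) (n := m) (m := C.idx p + 1) (by omega) hcon
  unfold idx at *
  omega

lemma idx_eq {p k : ℕ} (hk : k < m) (h1 : C.c k ≤ p) (h2 : p < C.c (k + 1)) : C.idx p = k := by
  have hpn : p < n := by
    have := C.c_mono (show k + 1 ≤ m by omega) le_rfl
    rw [C.cm] at this
    omega
  have hi := C.idx_spec p
  have hi2 := C.lt_idx hpn
  have hi3 := C.idx_lt hpn
  rcases lt_trichotomy (C.idx p) k with h | h | h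
  · have := C.c_mono (show C.idx p + 1 ≤ k by omega) (by omega)
    omega
  · exact h
  · have := C.c_mono (show k + 1 ≤ C.idx p by omega) (by omega)
    omega

/-- Reduced source of `p` relative to piece `k`. -/
def red (k p : ℕ) : ℕ := C.c k - C.d k + (p - C.c k) % C.d k

lemma red_lt {k p : ℕ} (hk : k < m) (hd : 0 < C.d k) : C.red k p < C.c k := by
  unfold red
  have := Nat.mod_lt (p - C.c k) hd
  have := C.dle k hk
  omega

/-- The period extends to all of `[c_k - d_k, c_{k+1})`. -/
lemma per_mul {k : ℕ} (hk : k < m) (hd : 0 < C.d k) (r : ℕ) : ∀ x, C.c k - C.d k ≤ x →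
    x + r * C.d k < C.c (k + 1) → s (x + r * C.d k) = s x := by
  induction r with
  | zero => intro x _ _; simp
  | succ r ih =>
    intro x hx hlt
    rw [Nat.succ_mul] at hlt ⊢
    have h1 := C.per k hk hd (x + (r * C.d k + C.d k)) (by have := C.dle k hk; omega) hlt
    rw [h1, show x + (r * C.d k + C.d k) - C.d k = x + r * C.d k by omega]
    exact ih x hx (by omega)

lemma s_red {k p : ℕ} (hk : k < m) (hd : 0 < C.d k) (h1 : C.c k ≤ p) (h2 : p < C.c (k + 1)) :
    s p = s (C.red k p) := by
  -- `p = red + (r + 1) d`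
  have hdl := C.dle k hk
  have hp : C.red k p + ((p - C.c k) / C.d k + 1) * C.d k = p := by
    unfold red
    have h3 := Nat.div_add_mod (p - C.c k) (C.d k)
    rw [Nat.succ_mul]
    rw [Nat.mul_comm] at h3
    omega
  conv_lhs => rw [← hp]
  refine C.per_mul hk hd _ _ ?_ ?_
  · unfold red; omega
  · rw [hp]; exact h2

/-- Reduced source map. -/
def src (p : ℕ) : ℕ := if p < n ∧ 0 < C.d (C.idx p) then C.red (C.idx p) p else p

lemma src_idx {p k : ℕ} (hk : k < m) (hd : 0 < C.d k) (h1 : C.c k ≤ p) (h2 : p < C.c (k + 1)) :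
    C.src p = C.red k p := by
  have hpn : p < n := by
    have := C.c_mono (show k + 1 ≤ m by omega) le_rfl
    rw [C.cm] at this
    omega
  have := C.idx_eq hk h1 h2
  unfold src
  rw [this, if_pos ⟨hpn, hd⟩]

lemma src_le (p : ℕ) : C.src p ≤ p := by
  unfold src
  split_ifs with h
  · have := C.red_lt (p := p) (C.idx_lt h.1) h.2
    have := C.idx_spec p
    omega
  · exact le_rfl

/-- Either fixed, or the index drops. -/
lemma src_drop (p : ℕ) : C.src p = p ∨ C.idx (C.src p) < C.idx p := by
  unfold src
  split_ifs with h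
  · right
    have h1 := C.red_lt (p := p) (C.idx_lt h.1) h.2
    by_contra hcon
    push Not at hcon
    have := C.c_mono hcon (C.idx_le _)
    have := C.idx_spec (C.red (C.idx p) p)
    omega
  · left; rfl

lemma iterate_fix (x : ℕ) (r : ℕ) :
    C.src (C.src^[r] x) = C.src^[r] x ∨ C.idx (C.src^[r] x) + r ≤ C.idx x := by
  induction r with
  | zero => right; simp
  | succ r ih =>
    rw [Function.iterate_succ_apply']
    rcases ih with h | h
    · left; rw [h, h]
    · rcases C.src_drop (C.src^[r] x) with h' | h'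
      · left; rw [h', h']
      · right; omega

lemma iterate_m (x : ℕ) : C.src (C.src^[m] x) = C.src^[m] x := by
  rcases C.iterate_fix x m with h | h
  · exact h
  · -- index zero: then the source map is fixed
    have h1 := C.idx_le x
    have h0 : C.idx (C.src^[m] x) = 0 := by omega
    rcases C.src_drop (C.src^[m] x) with h' | h'
    · exact h'
    · omega

/-- The initial cut points. -/
def base (i : ℕ) : Finset ℕ :=
  (Finset.range (m + 1)).image C.c ∪ (Finset.range m).image (fun k => C.c k - C.d k) ∪
    (Finset.range m).image (fun k => C.red k (C.c (k + 1))) ∪ {i}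

/-- The closed set of cut points. -/
def Q (i : ℕ) : Finset ℕ :=
  (C.base i ×ˢ Finset.range (m + 1)).image fun x => C.src^[x.2] x.1

lemma card_base (i : ℕ) : (C.base i).card ≤ 3 * m + 2 := by
  unfold base
  refine (Finset.card_union_le _ _).trans ?_
  have h1 := Finset.card_union_le ((Finset.range (m + 1)).image C.c ∪
    (Finset.range m).image (fun k => C.c k - C.d k))
    ((Finset.range m).image (fun k => C.red k (C.c (k + 1))))
  have h2 := Finset.card_union_le ((Finset.range (m + 1)).image C.c)
    ((Finset.range m).image (fun k => C.c k - C.d k))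
  have h3 := Finset.card_image_le (s := Finset.range (m + 1)) (f := C.c)
  have h4 := Finset.card_image_le (s := Finset.range m) (f := fun k => C.c k - C.d k)
  have h5 := Finset.card_image_le (s := Finset.range m) (f := fun k => C.red k (C.c (k + 1)))
  rw [Finset.card_range] at h3 h4 h5
  rw [Finset.card_singleton]
  omega

lemma card_Q (i : ℕ) : (C.Q i).card ≤ (3 * m + 2) * (m + 1) := by
  unfold Q
  refine Finset.card_image_le.trans ?_
  rw [Finset.card_product, Finset.card_range]
  exact Nat.mul_le_mul_right _ (C.card_base i)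

lemma base_sub (i : ℕ) : C.base i ⊆ C.Q i := by
  intro x hx
  unfold Q
  rw [Finset.mem_image]
  exact ⟨(x, 0), Finset.mem_product.2 ⟨hx, by simp⟩, rfl⟩

lemma c_mem {i k : ℕ} (hk : k ≤ m) : C.c k ∈ C.Q i := by
  refine C.base_sub i ?_
  unfold base
  simp only [Finset.mem_union, Finset.mem_image, Finset.mem_range, Finset.mem_singleton]
  exact Or.inl (Or.inl (Or.inl ⟨k, by omega, rfl⟩))

lemma cd_mem {i k : ℕ} (hk : k < m) : C.c k - C.d k ∈ C.Q i := by
  refine C.base_sub i ?_
  unfold base
  simp only [Finset.mem_union, Finset.mem_image, Finset.mem_range, Finset.mem_singleton]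
  exact Or.inl (Or.inl (Or.inr ⟨k, hk, rfl⟩))

lemma red_mem {i k : ℕ} (hk : k < m) : C.red k (C.c (k + 1)) ∈ C.Q i := by
  refine C.base_sub i ?_
  unfold base
  simp only [Finset.mem_union, Finset.mem_image, Finset.mem_range, Finset.mem_singleton]
  exact Or.inl (Or.inr ⟨k, hk, rfl⟩)

lemma i_mem {i : ℕ} : i ∈ C.Q i := by
  refine C.base_sub i ?_
  unfold base
  simp

lemma n_mem {i : ℕ} : n ∈ C.Q i := by
  have := C.c_mem (i := i) (k := m) le_rfl
  rwa [C.cm] at this

lemma src_mem {i q : ℕ} (hq : q ∈ C.Q i) : C.src q ∈ C.Q i := by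
  unfold Q at *
  rw [Finset.mem_image] at hq ⊢
  obtain ⟨⟨x, r⟩, hx, rfl⟩ := hq
  rw [Finset.mem_product, Finset.mem_range] at hx
  simp only at hx
  by_cases hr : r < m
  · refine ⟨(x, r + 1), Finset.mem_product.2 ⟨hx.1, by simp; omega⟩, ?_⟩
    simp only
    rw [Function.iterate_succ_apply']
  · have hrm : r = m := by omega
    subst hrm
    exact ⟨(x, r), Finset.mem_product.2 ⟨hx.1, by simp⟩, (C.iterate_m x).symm⟩

lemma red_mem' {i k q : ℕ} (hk : k < m) (hd : 0 < C.d k) (h1 : C.c k ≤ q) (h2 : q ≤ C.c (k + 1))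
    (hq : q ∈ C.Q i) : C.red k q ∈ C.Q i := by
  rcases Nat.lt_or_eq_of_le h2 with h | h
  · rw [← C.src_idx hk hd h1 h]
    exact C.src_mem hq
  · rw [h]; exact C.red_mem hk

/-! ### Blocks -/

variable (i : ℕ)

open Classical in
/-- The next cut point after `q < n`. -/
noncomputable def nxt (q : ℕ) : ℕ := if h : q < n then Nat.find (p := fun x => q < x ∧ x ∈ C.Q i)
  ⟨n, h, C.n_mem⟩ else n

lemma nxt_spec {q : ℕ} (h : q < n) : q < C.nxt i q ∧ C.nxt i q ∈ C.Q i := by
  classical
  unfold nxt
  rw [dif_pos h]
  exact Nat.find_spec (p := fun x => q < x ∧ x ∈ C.Q i) _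

lemma nxt_le {q x : ℕ} (h : q < n) (hx : q < x) (hxQ : x ∈ C.Q i) : C.nxt i q ≤ x := by
  classical
  unfold nxt
  rw [dif_pos h]
  exact Nat.find_min' (p := fun x => q < x ∧ x ∈ C.Q i) _ ⟨hx, hxQ⟩

/-- The block starting at `q` occurs in `[i, u)`. -/
def Avail (q u : ℕ) : Prop := ∃ j, i ≤ j ∧ j + (C.nxt i q - q) ≤ u ∧ Occ s j q (C.nxt i q - q)

open Classical in
/-- The blocks before `q0` that become available between `u` and `u'`. -/
noncomputable def New (q0 u u' : ℕ) : Finset ℕ :=
  (C.Q i).filter fun δ => δ < n ∧ δ < q0 ∧ C.Avail i δ u' ∧ ¬ C.Avail i δ u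

lemma mem_New {q0 u u' δ : ℕ} : δ ∈ C.New i q0 u u' ↔
    δ ∈ C.Q i ∧ δ < n ∧ δ < q0 ∧ C.Avail i δ u' ∧ ¬ C.Avail i δ u := by
  classical
  unfold New
  rw [Finset.mem_filter]

lemma card_New_le (q0 u u' : ℕ) : (C.New i q0 u u').card ≤ (C.Q i).card :=
  Finset.card_le_card fun _ h => ((C.mem_New i).1 h).1

lemma avail_mono {q u u' : ℕ} (h : u ≤ u') (hA : C.Avail i q u) : C.Avail i q u' := by
  obtain ⟨j, h1, h2, h3⟩ := hA
  exact ⟨j, h1, by omega, h3⟩

lemma new_mono {q0 q1 u u' u'' : ℕ} (hq : q0 ≤ q1) (hu : u' ≤ u'') :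
    C.New i q0 u u' ⊆ C.New i q1 u u'' := by
  intro δ hδ
  rw [mem_New] at hδ ⊢
  obtain ⟨h1, h2, h3, h4, h5⟩ := hδ
  exact ⟨h1, h2, by omega, C.avail_mono i hu h4, h5⟩

lemma new_add {q0 u u' u'' : ℕ} (h1 : u ≤ u') (h2 : u' ≤ u'') :
    (C.New i q0 u u').card + (C.New i q0 u' u'').card ≤ (C.New i q0 u u'').card := by
  classical
  rw [← Finset.card_union_of_disjoint]
  · refine Finset.card_le_card ?_
    intro δ hδ
    rw [Finset.mem_union] at hδ
    rcases hδ with hδ | hδ
    · rw [mem_New] at hδ ⊢
      obtain ⟨h3, h4, h5, h6, h7⟩ := hδ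
      exact ⟨h3, h4, h5, C.avail_mono i h2 h6, h7⟩
    · rw [mem_New] at hδ ⊢
      obtain ⟨h3, h4, h5, h6, h7⟩ := hδ
      exact ⟨h3, h4, h5, h6, fun h => h7 (C.avail_mono i h1 h)⟩
  · rw [Finset.disjoint_left]
    intro δ hδ hδ'
    rw [mem_New] at hδ hδ'
    exact hδ'.2.2.2.2 hδ.2.2.2.1

/-- Number of blocks in `[a, b)`. -/
def cnt (a b : ℕ) : ℕ := ((C.Q i).filter fun x => a ≤ x ∧ x < b).card

lemma cnt_le (a b : ℕ) : C.cnt i a b ≤ (C.Q i).card := Finset.card_filter_le _ _

lemma cnt_add_le {a b c : ℕ} (hab : a ≤ b) (hbc : b ≤ c) :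
    C.cnt i a b + C.cnt i b c ≤ C.cnt i a c := by
  unfold cnt
  rw [← Finset.card_union_of_disjoint]
  · refine Finset.card_le_card ?_
    intro x hx
    rw [Finset.mem_union, Finset.mem_filter, Finset.mem_filter] at hx
    rw [Finset.mem_filter]
    rcases hx with h | h <;> exact ⟨h.1, by omega⟩
  · rw [Finset.disjoint_left]
    intro x hx hx'
    rw [Finset.mem_filter] at hx hx'
    omega

/-- Producing one block. -/
def P1 (K q : ℕ) : Prop := ∀ u, i ≤ u → Occ s u q (C.nxt i q - q) →
  ∃ m', Parse s i u (u + (C.nxt i q - q)) m' ∧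
    m' ≤ 1 + K * (C.New i (q + 1) u (u + (C.nxt i q - q))).card

/-- Producing an interval between cut points, given all blocks before `q0`. -/
lemma P2 {K q0 : ℕ} (hP : ∀ q ∈ C.Q i, q < n → q < q0 → C.P1 i K q) :
    ∀ N a b, b - a ≤ N → a ∈ C.Q i → b ∈ C.Q i → a ≤ b → b ≤ n → b ≤ q0 → ∀ u, i ≤ u →
      Occ s u a (b - a) → ∃ m', Parse s i u (u + (b - a)) m' ∧
        m' ≤ C.cnt i a b + K * (C.New i q0 u (u + (b - a))).card := by
  intro N
  induction N with
  | zero =>
    intro a b hN _ _ hab _ _ u _ _
    have : b - a = 0 := by omega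
    refine ⟨0, ?_, Nat.zero_le _⟩
    rw [this]
    exact Parse.nil u
  | succ N ih =>
    intro a b hN ha hb hab hbn hbq u hu hocc
    rcases Nat.eq_or_lt_of_le hab with rfl | hlt
    · refine ⟨0, ?_, Nat.zero_le _⟩
      rw [Nat.sub_self]
      exact Parse.nil u
    · have han : a < n := by omega
      obtain ⟨h1, h2⟩ := C.nxt_spec i han
      have h3 := C.nxt_le i han hlt hb
      set a' := C.nxt i a with ha'
      have hlen : C.nxt i a - a ≤ b - a := by omega
      obtain ⟨m1, hm1, hm1'⟩ := hP a ha han (by omega) u hu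
        (fun t ht => hocc t (by omega))
      obtain ⟨m2, hm2, hm2'⟩ := ih a' b (by omega) h2 hb h3 hbn hbq (u + (a' - a)) (by omega)
        (by
          intro t ht
          have := hocc (a' - a + t) (by omega)
          rw [show u + (a' - a) + t = u + (a' - a + t) by omega, this]
          congr 1
          omega)
      rw [← ha'] at hm1 hm1'
      rw [show u + (a' - a) + (b - a') = u + (b - a) by omega] at hm2 hm2'
      refine ⟨m1 + m2, hm1.append hm2, ?_⟩
      have hc : 1 + C.cnt i a' b ≤ C.cnt i a b := by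
        have h4 := C.cnt_add_le i (show a ≤ a' by omega) h3
        have h5 : 1 ≤ C.cnt i a a' := by
          unfold cnt
          rw [Nat.one_le_iff_ne_zero, Finset.card_ne_zero]
          exact ⟨a, Finset.mem_filter.2 ⟨ha, le_rfl, h1⟩⟩
        omega
      have hn : (C.New i (a + 1) u (u + (a' - a))).card + (C.New i q0 (u + (a' - a))
          (u + (b - a))).card ≤ (C.New i q0 u (u + (b - a))).card := by
        refine le_trans ?_ (C.new_add i (u := u) (u' := u + (a' - a)) (by omega) (by omega))
        refine Nat.add_le_add_right (Finset.card_le_card (C.new_mono i (by omega) le_rfl)) _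
      have hn' := Nat.mul_le_mul_left K hn
      rw [Nat.mul_add] at hn'
      omega

lemma P1_all (K : ℕ) (hK : (C.Q i).card + 1 ≤ K) :
    ∀ q ∈ C.Q i, q < n → C.P1 i K q := by
  intro q
  induction q using Nat.strong_induction_on with
  | _ q ihq =>
    intro hq hqn u hu hocc
    classical
    obtain ⟨hn1, hn2⟩ := C.nxt_spec i hqn
    set q' := C.nxt i q with hq'
    set len := q' - q with hlen
    have hlen1 : 1 ≤ len := by omega
    -- available or single letter
    by_cases hA : C.Avail i q u
    · obtain ⟨j, h1, h2, h3⟩ := hA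
      refine ⟨1, Parse.one (by omega) (Or.inr ⟨j, h1, by omega, ?_⟩), by omega⟩
      intro t ht
      rw [h3 t (by omega), hocc t (by omega)]
    by_cases hl1 : len = 1
    · exact ⟨1, Parse.one (by omega) (Or.inl (by omega)), by omega⟩
    -- the piece containing `q`
    set k := C.idx q with hk
    have hkm : k < m := C.idx_lt hqn
    have hkq : C.c k ≤ q := C.idx_spec q
    have hqk : q < C.c (k + 1) := C.lt_idx hqn
    have hq'k : q' ≤ C.c (k + 1) := C.nxt_le i hqn hqk (C.c_mem (by omega))
    have hd : 0 < C.d k := by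
      by_contra hcon
      have := C.zero k hkm (by omega)
      omega
    have hdl := C.dle k hkm
    set d := C.d k with hdd
    set x := C.red k q with hx
    have hxc : x < C.c k := C.red_lt hkm hd
    have hxd : C.c k - d ≤ x := by rw [hx]; unfold red; rw [← hdd]; omega
    have hxQ : x ∈ C.Q i := C.red_mem' hkm hd hkq hqk.le hq
    have hyQ : C.red k q' ∈ C.Q i := C.red_mem' hkm hd (by omega) hq'k hn2
    have hmodq : (q - C.c k) % d = x - (C.c k - d) := by rw [hx]; unfold red; rw [← hdd]; omega
    -- the sequence along the block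
    have hsq : ∀ t, q + t < C.c (k + 1) → s (q + t) = s (C.red k (q + t)) := fun t ht =>
      C.s_red hkm hd (by omega) ht
    have hredt : ∀ t, C.red k (q + t) = C.c k - d + (x - (C.c k - d) + t) % d := by
      intro t
      unfold red
      rw [show q + t - C.c k = (q - C.c k) + t by omega, Nat.add_mod, hmodq]
      conv_rhs => rw [Nat.add_mod, Nat.mod_eq_of_lt (show x - (C.c k - d) < d by omega)]
    have hred1 : ∀ t, t < C.c k - x → C.red k (q + t) = x + t := by
      intro t ht
      rw [hredt, Nat.mod_eq_of_lt (by omega)]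
      omega
    have hred2 : ∀ t, t < d → C.red k (q + (C.c k - x) + t) = C.c k - d + t := by
      intro t ht
      rw [Nat.add_assoc, hredt, show x - (C.c k - d) + (C.c k - x + t) = d + t by omega,
        Nat.add_mod_left, Nat.mod_eq_of_lt ht]
    -- `q` is newly available
    have hnewq : ∀ u2, u2 ≤ u + len →
        (C.New i q u u2).card + 1 ≤ (C.New i (q + 1) u (u + len)).card := by
      intro u2 hu2
      have hsub : insert q (C.New i q u u2) ⊆ C.New i (q + 1) u (u + len) := by
        intro δ hδ
        rw [Finset.mem_insert] at hδ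
        rcases hδ with rfl | hδ
        · rw [mem_New]
          exact ⟨hq, hqn, by omega, ⟨u, hu, le_rfl, hocc⟩, hA⟩
        · exact C.new_mono i (by omega) hu2 hδ
      have hnot : q ∉ C.New i q u u2 := by
        rw [mem_New]
        rintro ⟨-, -, h, -⟩
        omega
      have := Finset.card_le_card hsub
      rwa [Finset.card_insert_of_notMem hnot] at this
    have hP : ∀ q1 ∈ C.Q i, q1 < n → q1 < q → C.P1 i K q1 := fun q1 h1 h2 h3 => ihq q1 h3 h1 h2
    have hckQ : C.c k ∈ C.Q i := C.c_mem hkm.le
    have hckd : C.c k - d ∈ C.Q i := C.cd_mem hkm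
    by_cases hle : len ≤ C.c k - x
    · -- one interval `[x, x + len)`
      have hbQ : x + len ∈ C.Q i := by
        rcases Nat.lt_or_eq_of_le hle with h | h
        · have := hred1 len h
          rw [show q + len = q' by omega] at this
          rw [← this]; exact hyQ
        · rw [h, show x + (C.c k - x) = C.c k by omega]; exact hckQ
      obtain ⟨m', hm', hm''⟩ := C.P2 i hP _ x (x + len) le_rfl hxQ hbQ (by omega) (by omega)
        (by omega) u hu (by
          intro t ht
          rw [hocc t (by omega), hsq t (by omega), hred1 t (by omega)])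
      rw [show x + len - x = len by omega] at hm' hm''
      refine ⟨m', hm', ?_⟩
      have h1 := C.cnt_le i x (x + len)
      have h2 := Nat.mul_le_mul_left K (hnewq (u + len) le_rfl)
      rw [Nat.mul_add, Nat.mul_one] at h2
      omega
    · -- two intervals
      push Not at hle
      set e := C.c k - x with he
      have hfirst := C.P2 i hP _ x (C.c k) le_rfl hxQ hckQ hxc.le (by omega) (by omega) u hu (by
          intro t ht
          rw [hocc t (by omega), hsq t (by omega), hred1 t (by omega)])
      obtain ⟨m1, hm1, hm1'⟩ := hfirst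
      rw [← he] at hm1 hm1'
      by_cases hld : len ≤ d
      · -- no self copy
        have hyeq : C.red k q' = C.c k - d + (len - e) := by
          have := hred2 (len - e) (by omega)
          rw [show q + (C.c k - x) + (len - e) = q' by omega] at this
          exact this
        rw [hyeq] at hyQ
        obtain ⟨m2, hm2, hm2'⟩ := C.P2 i hP _ (C.c k - d) (C.c k - d + (len - e)) le_rfl hckd hyQ
          (by omega) (by omega) (by omega) (u + e) (by omega) (by
            intro t ht
            have h1 := hocc (e + t) (by omega)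
            have h2 := hsq (e + t) (by omega)
            rw [show u + e + t = u + (e + t) by omega, h1, h2,
              show q + (e + t) = q + (C.c k - x) + t by omega, hred2 t (by omega)])
        rw [show C.c k - d + (len - e) - (C.c k - d) = len - e by omega,
          show u + e + (len - e) = u + len by omega] at hm2 hm2'
        refine ⟨m1 + m2, hm1.append hm2, ?_⟩
        have h1 : C.cnt i x (C.c k) + C.cnt i (C.c k - d) (C.c k - d + (len - e)) ≤
            (C.Q i).card := by
          have h2 := C.cnt_add_le i (show C.c k - d ≤ C.c k - d + (len - e) by omega)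
            (show C.c k - d + (len - e) ≤ x by omega)
          have h3 := C.cnt_add_le i (show C.c k - d ≤ x by omega) hxc.le
          have h4 := C.cnt_le i (C.c k - d) (C.c k)
          omega
        have h2 := C.new_add i (q0 := q) (u := u) (u' := u + e) (u'' := u + len) (by omega) (by omega)
        have h3 := hnewq (u + len) le_rfl
        have h4 : (C.New i q u (u + e)).card + (C.New i q (u + e) (u + len)).card + 1 ≤
            (C.New i (q + 1) u (u + len)).card := by omega
        have h5 := Nat.mul_le_mul_left K h4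
        rw [Nat.mul_add, Nat.mul_add, Nat.mul_one] at h5
        omega
      · -- with a self copy
        push Not at hld
        obtain ⟨m2, hm2, hm2'⟩ := C.P2 i hP _ (C.c k - d) x le_rfl hckd hxQ
          hxd (by omega) (by omega) (u + e) (by omega) (by
            intro t ht
            have h1 := hocc (e + t) (by omega)
            have h2 := hsq (e + t) (by omega)
            rw [show u + e + t = u + (e + t) by omega, h1, h2,
              show q + (e + t) = q + (C.c k - x) + t by omega, hred2 t (by omega)])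
        rw [show u + e + (x - (C.c k - d)) = u + d by omega] at hm2 hm2'
        have hself : Parse s i (u + d) (u + len) 1 := by
          refine Parse.one (by omega) (Or.inr ⟨u, hu, by omega, ?_⟩)
          intro t ht
          have h1 := hocc t (by omega)
          have h2 := hocc (d + t) (by omega)
          rw [show u + d + t = u + (d + t) by omega, h1, h2]
          have h3 := C.per k hkm hd (q + (d + t)) (by omega) (by omega)
          rw [h3]
          congr 1
          omega
        refine ⟨m1 + m2 + 1, (hm1.append hm2).append hself, ?_⟩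
        have h1 : C.cnt i x (C.c k) + C.cnt i (C.c k - d) x ≤ (C.Q i).card := by
          have h3 := C.cnt_add_le i (show C.c k - d ≤ x by omega) hxc.le
          have h4 := C.cnt_le i (C.c k - d) (C.c k)
          omega
        have h2 := C.new_add i (q0 := q) (u := u) (u' := u + e) (u'' := u + d) (by omega) (by omega)
        have h3 := hnewq (u + d) (by omega)
        have h4 : (C.New i q u (u + e)).card + (C.New i q (u + e) (u + d)).card + 1 ≤
            (C.New i (q + 1) u (u + len)).card := by omega
        have h5 := Nat.mul_le_mul_left K h4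
        rw [Nat.mul_add, Nat.mul_add, Nat.mul_one] at h5
        omega

end Cuts

/-- **Suffix bound for parses.** -/
theorem suffix_parse {s : ℕ → β} {n m : ℕ} (h : Parse s 0 0 n m) (i : ℕ) (hi : i ≤ n) :
    ∃ m', Parse s i i n m' ∧ m' ≤ ((3 * m + 2) * (m + 1) + 2) ^ 2 := by
  obtain ⟨C⟩ := h.cuts
  set K := (C.Q i).card + 1 with hK
  obtain ⟨m', h1, h2⟩ := C.P2 i (K := K) (q0 := n) (fun q hq hqn _ => C.P1_all i K le_rfl q hq hqn)
    _ i n le_rfl C.i_mem C.n_mem hi le_rfl le_rfl i le_rfl (fun t _ => rfl)
  rw [show i + (n - i) = n by omega] at h1 h2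
  refine ⟨m', h1, h2.trans ?_⟩
  have h3 := C.cnt_le i i n
  have h4 : (C.New i n i n).card ≤ (C.Q i).card := C.card_New_le i _ _ _
  have h5 := C.card_Q i
  calc C.cnt i i n + K * (C.New i n i n).card
      ≤ (C.Q i).card + ((C.Q i).card + 1) * (C.Q i).card := by
        refine Nat.add_le_add h3 (Nat.mul_le_mul_left _ h4)
    _ ≤ ((C.Q i).card + 2) ^ 2 := by nlinarith
    _ ≤ ((3 * m + 2) * (m + 1) + 2) ^ 2 := by
        exact Nat.pow_le_pow_left (by omega) 2

end Pool.Agent.V11238.LZ
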